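import Pool.Agent.helper75.AU.SpecW

/-!
# Project au: module QW6 (the genus of a hyperelliptic curve)
-/

namespace Pool.Agent.helper53.AU

open scoped Classical IntermediateField

noncomputable section

theorem QW6 (h3 : QW3_stmt) (h4 : QW4_stmt) (h5 : QW5_stmt) (hR2 : QR2_stmt) (hA3 : QA3_stmt) :
    QW6_stmt := by
  intro k F _ _ _ _ f x y m h2 hsq hdeg hyp
  obtain ⟨hF, -⟩ := h3 k F f x y hsq (by omega) hyp
  refine ⟨hF, ?_⟩
  obtain ⟨P₀, hx, hy, hox, hoy⟩ := h4 k F f x y m hsq hdeg hyp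
  have hO := h5 k F hF f x y m P₀ h2 hsq hdeg hyp hx hy hox hoy
  obtain ⟨g, hg⟩ := hR2 k F hF
  have h := hA3 k F hF g hg P₀ x 2 _ _ hO
  have hgm : g = m := by
    simp only [Fin.sum_univ_two, Matrix.cons_val_zero, Matrix.cons_val_one] at h
    push_cast at h
    omega
  rw [← hgm]
  exact hg

end

end Pool.Agent.helper53.AU
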