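import Pool.Agent.helper87.AU.SpecQ1

/-!
# Project au: module QD5 (discriminant of a power basis)
-/

namespace Pool.Agent.helper53.AU

open scoped Classical IntermediateField
open Polynomial (aeval)

noncomputable section

theorem QD5 : QD5_stmt := by
  intro k F _ _ _ _ hF x n α hsep hdeg hli f hfm hfn hf0
  obtain ⟨htr, hfd, hse⟩ := hsep
  have hcard : Fintype.card (Fin n) = Module.finrank k⟮x⟯ F := by
    rw [Fintype.card_fin]; exact hdeg.symm
  have hnpos : 0 < n := by
    rw [← hdeg]; exact Module.finrank_pos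
  have : Nonempty (Fin n) := ⟨⟨0, hnpos⟩⟩
  let b := basisOfLinearIndependentOfCardEqFinrank hli hcard
  have hb : ∀ i, b i = α ^ (i : ℕ) := fun i => by
    simp [b, coe_basisOfLinearIndependentOfCardEqFinrank]
  let pb : PowerBasis k⟮x⟯ F := ⟨α, n, b, hb⟩
  have hdisc := Algebra.discr_powerBasis_eq_norm k⟮x⟯ pb
  have hbf : (pb.basis : Fin n → F) = fun j : Fin n => α ^ (j : ℕ) := by
    funext j; exact hb j
  -- the minimal polynomial
  let φ : Polynomial k →+* k⟮x⟯ :=
    (aeval (IntermediateField.AdjoinSimple.gen k x) : Polynomial k →ₐ[k] k⟮x⟯).toRingHom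
  have hφ : ∀ p : Polynomial k, ((φ p : k⟮x⟯) : F) = aeval x p := by
    intro p
    have h1 := Polynomial.aeval_algebraMap_apply F (IntermediateField.AdjoinSimple.gen k x) p
    rw [IntermediateField.AdjoinSimple.algebraMap_gen] at h1
    exact h1.symm
  have hcomp : (algebraMap k⟮x⟯ F).comp φ = (aeval x : Polynomial k →ₐ[k] F).toRingHom := by
    ext p
    · simp [φ]
    · have := hφ Polynomial.X
      simpa using this
  have hroot : aeval α (f.map φ) = 0 := by
    rw [Polynomial.aeval_def, Polynomial.eval₂_map, hcomp]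
    exact hf0
  have hmon : (f.map φ).Monic := hfm.map φ
  have hmin : minpoly k⟮x⟯ α = f.map φ := by
    have hint : IsIntegral k⟮x⟯ α := Algebra.IsIntegral.isIntegral α
    symm
    apply Polynomial.eq_of_monic_of_dvd_of_natDegree_le (minpoly.monic hint) hmon
      (minpoly.dvd k⟮x⟯ α hroot)
    rw [hfm.natDegree_map, hfn]
    have := pb.natDegree_minpoly
    rw [this]
  have hder : aeval pb.gen (Polynomial.derivative (minpoly k⟮x⟯ pb.gen)) =
      Polynomial.eval₂ (aeval x : Polynomial k →ₐ[k] F).toRingHom α f.derivative := by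
    have : pb.gen = α := rfl
    rw [this, hmin, Polynomial.derivative_map, Polynomial.aeval_def, Polynomial.eval₂_map, hcomp]
  rw [hbf, hder] at hdisc
  rcases neg_one_pow_eq_or k⟮x⟯ (Module.finrank k⟮x⟯ F * (Module.finrank k⟮x⟯ F - 1) / 2) with h | h
  · left
    rw [hdisc, h, one_mul]
  · right
    rw [hdisc, h, neg_one_mul]
    simp

end

end Pool.Agent.helper53.AU
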