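import Pool.Agent.helper87.AU.SpecQ1

/-!
# Project au: module QR4 (strong approximation outside one place)
-/

namespace Pool.Agent.helper53.AU

open scoped Classical IntermediateField

noncomputable section

variable {k F : Type} [Field k] [Field F] [Algebra k F]

theorem QR4_degD_sub (D E : Place k F →₀ ℤ) : degD (D - E) = degD D - degD E := by
  unfold degD
  exact Finsupp.sum_sub_index (fun _ _ _ => rfl)

theorem QR4_degD_single (P : Place k F) (n : ℤ) : degD (Finsupp.single P n) = n := by
  unfold degD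
  exact Finsupp.sum_single_index rfl

/-- functions with prescribed order at one place of `S` and at least prescribed orders at the others -/
theorem QR4_exists (hR2 : QR2_stmt) (hR3 : QR3_stmt) [IsAlgClosed k] (hF : IsFF k F)
    (P₀ : Place k F) (S : Finset (Place k F)) (hP₀ : P₀ ∉ S) (w : Place k F → ℕ) (P : Place k F)
    (hP : P ∈ S) : ∃ f ∈ Reg P₀, f ≠ 0 ∧ P.ord f = w P ∧ ∀ Q ∈ S, (w Q : ℤ) ≤ Q.ord f := by
  obtain ⟨g, hg⟩ := hR2 k F hF
  obtain ⟨-, c, hc⟩ := hR3 k F hF g hg
  set B : Place k F →₀ ℤ := ∑ Q ∈ S, Finsupp.single Q (w Q : ℤ) with hB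
  have hBv : ∀ Q, B Q = if Q ∈ S then (w Q : ℤ) else 0 := by
    intro Q
    rw [hB, Finsupp.finsetSum_apply]
    simp only [Finsupp.single_apply]
    by_cases hQ : Q ∈ S
    · rw [if_pos hQ, Finset.sum_eq_single Q]
      · simp
      · intro b _ hb; rw [if_neg hb]
      · intro h; exact absurd hQ h
    · rw [if_neg hQ]
      apply Finset.sum_eq_zero
      intro b hb
      rw [if_neg]
      rintro rfl
      exact hQ hb
  set r : ℤ := c + degD B + 1 with hr
  set D : Place k F →₀ ℤ := Finsupp.single P₀ r - B with hD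
  set D' : Place k F →₀ ℤ := D - Finsupp.single P 1 with hD'
  have hPP : P ≠ P₀ := by rintro rfl; exact hP₀ hP
  have hdD : degD D = c + 1 := by
    rw [hD, QR4_degD_sub, QR4_degD_single, hr]; ring
  have hdD' : degD D' = c := by
    rw [hD', QR4_degD_sub, QR4_degD_single, hdD]; ring
  have h1 := hc D (by rw [hdD]; linarith)
  have h2 := hc D' (by rw [hdD'])
  have hne : RR D' ≠ RR D := by
    intro h
    have h3 : ell D' = ell D := by unfold ell; rw [h]
    rw [h3, h1, hdD, hdD'] at h2
    linarith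
  have hle : RR D' ≤ RR D := by
    intro f hf
    rcases hf with hf | hf
    · exact Or.inl hf
    · right
      intro Q
      have h3 := hf Q
      have h4 : D' Q = D Q - (Finsupp.single P (1 : ℤ)) Q := by rw [hD', Finsupp.sub_apply]
      have h5 : 0 ≤ (Finsupp.single P (1 : ℤ)) Q := by
        rw [Finsupp.single_apply]; split_ifs <;> norm_num
      linarith
  obtain ⟨f, hf, hf'⟩ := SetLike.exists_of_lt (lt_of_le_of_ne hle hne)
  have hf0 : f ≠ 0 := by
    rintro rfl
    exact hf' (Submodule.zero_mem _)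
  have hfo : ∀ Q : Place k F, -D Q ≤ Q.ord f := hf.resolve_left hf0
  have hDv : ∀ Q, Q ≠ P₀ → D Q = -(if Q ∈ S then (w Q : ℤ) else 0) := by
    intro Q hQ
    rw [hD, Finsupp.sub_apply, hBv, Finsupp.single_apply, if_neg (Ne.symm hQ)]
    ring
  refine ⟨f, ?_, hf0, ?_, ?_⟩
  · intro Q hQ
    right
    have h3 := hfo Q
    rw [hDv Q hQ] at h3
    split_ifs at h3 with h4
    · have : (0 : ℤ) ≤ w Q := Int.natCast_nonneg _
      linarith
    · linarith
  · have h3 := hfo P
    rw [hDv P hPP, if_pos hP] at h3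
    have h4 : ∃ Q : Place k F, Q.ord f < -D' Q := by
      by_contra hcon
      push Not at hcon
      exact hf' (Or.inr hcon)
    obtain ⟨Q, hQ⟩ := h4
    have h5 : D' Q = D Q - (Finsupp.single P (1 : ℤ)) Q := by rw [hD', Finsupp.sub_apply]
    rw [h5, Finsupp.single_apply] at hQ
    by_cases hPQ : P = Q
    · subst hPQ
      rw [if_pos rfl, hDv P hPP, if_pos hP] at hQ
      omega
    · rw [if_neg hPQ] at hQ
      have := hfo Q
      linarith
  · intro Q hQ
    have hQP : Q ≠ P₀ := by rintro rfl; exact hP₀ hQ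
    have h3 := hfo Q
    rw [hDv Q hQP, if_pos hQ] at h3
    linarith

theorem QR4 (hV1 : QV1_stmt) (hR2 : QR2_stmt) (hR3 : QR3_stmt) : QR4_stmt := by
  intro k F _ _ _ _ hF P₀ S N a hP₀ ha
  suffices h : ∀ m : ℕ, m ≤ N → ∃ f ∈ Reg P₀, ∀ P ∈ S, P.Ge m (f - a P) from h N le_rfl
  intro m
  induction m with
  | zero =>
    intro _
    refine ⟨0, (Reg P₀).zero_mem, ?_⟩
    intro P hP
    rw [zero_sub]
    exact (ha P hP).neg
  | succ m ih =>
    intro hm
    obtain ⟨f, hf, hfa⟩ := ih (by omega)
    -- the correction at `P`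
    have hcor : ∀ P : Place k F, ∃ e ∈ Reg P₀, P ∈ S →
        P.Ge ((m : ℤ) + 1) (a P - f - e) ∧ ∀ Q ∈ S, Q ≠ P → Q.Ge ((m : ℤ) + 1) e := by
      intro P
      by_cases hP : P ∈ S
      swap
      · exact ⟨0, (Reg P₀).zero_mem, fun h => absurd h hP⟩
      obtain ⟨h, hh, hh0, hhP, hhQ⟩ := QR4_exists hR2 hR3 hF P₀ S hP₀
        (fun Q => if Q = P then m else m + 1) P hP
      rw [if_pos rfl] at hhP
      have h1 : P.Ge 0 ((a P - f) / h) := by
        have h2 := (hfa P hP).neg
        rw [neg_sub] at h2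
        rw [div_eq_mul_inv]
        have h3 : P.Ge (-(m : ℤ)) h⁻¹ := by
          right; rw [P.ord_inv hh0, hhP]
        have := h2.mul h3
        simpa using this
      obtain ⟨c, hc⟩ := hV1 k F hF P _ h1
      refine ⟨algebraMap k F c * h, (Reg P₀).mul_mem ((Reg P₀).algebraMap_mem c) hh, fun _ => ⟨?_, ?_⟩⟩
      · have h4 : P.Ge (m : ℤ) h := by right; rw [hhP]
        have h5 := hc.mul h4
        have h6 : ((a P - f) / h - algebraMap k F c) * h = a P - f - algebraMap k F c * h := by
          rw [sub_mul, div_mul_cancel₀ _ hh0]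
        rw [h6] at h5
        exact h5.mono (by linarith)
      · intro Q hQ hQP
        have h7 := hhQ Q hQ
        rw [if_neg hQP] at h7
        apply Place.Ge.const_mul
        right
        push_cast at h7
        exact h7
    choose e he heS using hcor
    refine ⟨f + ∑ P ∈ S, e P, (Reg P₀).add_mem hf ((Reg P₀).sum_mem fun P _ => he P), ?_⟩
    intro P hP
    have h1 : f + ∑ Q ∈ S, e Q - a P = -(a P - f - e P) + ∑ Q ∈ S.erase P, e Q := by
      rw [← Finset.add_sum_erase S e hP]; ring
    rw [h1]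
    push_cast
    refine Place.Ge.add (heS P hP).1.neg ?_
    apply Place.Ge.sum
    intro Q hQ
    rw [Finset.mem_erase] at hQ
    exact (heS Q hQ.2).2 P hP (Ne.symm hQ.1)

end

end Pool.Agent.helper53.AU
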