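import Pool.Agent.helper53.AU.SpecG3

/-!
# Project au: module C1
-/

namespace Pool.Agent.helper53.AU

open scoped Classical

/-- the odd part of `A` is a Hall subgroup -/
theorem C1_hall {L Ω : Type} [Group L] [MulAction L Ω] {A : Subgroup L} (hAB : AB_stmt)
    (h : PL L Ω A) (H : Subgroup L) (hH : oddPart A ≤ H) :
    Nat.Coprime (Nat.card (oddPart A)) (Nat.card H / Nat.card (oddPart A)) := by
  have := h.finL
  have := h.finΩ
  have := h.trans
  obtain ⟨-, -, hEF, hodd, ⟨n, hF⟩, -⟩ := hAB L A h.cyc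
  obtain ⟨α⟩ := h.nonempty
  have h1 : Nat.card (MulAction.stabilizer L α) * Nat.card Ω = Nat.card L := by
    rw [← MulAction.index_stabilizer_of_transitive L α]
    exact Subgroup.card_mul_index _
  have hEpos : 0 < Nat.card (oddPart A) := Nat.card_pos
  have h2 : Nat.card L =
      Nat.card (oddPart A) * (Nat.card (MulAction.stabilizer L α) * (2 * 2 ^ n)) := by
    rw [← h1, ← h.cardA, ← hEF, hF]; ring
  have h3 : Nat.card L / Nat.card (oddPart A) =
      Nat.card (MulAction.stabilizer L α) * (2 * 2 ^ n) := by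
    rw [h2]; exact Nat.mul_div_cancel_left _ hEpos
  have h4 : Nat.Coprime (Nat.card (oddPart A)) (Nat.card L / Nat.card (oddPart A)) := by
    rw [h3]
    have hdv : Nat.card (oddPart A) ∣ Nat.card Ω := by
      rw [← h.cardA, ← hEF]
      exact ⟨2 * Nat.card (twoPart A), by ring⟩
    refine Nat.Coprime.mul_right ?_ ?_
    · exact ((h.copr α).coprime_dvd_right hdv).symm
    · have : 2 * 2 ^ n = 2 ^ (n + 1) := by ring
      rw [this]
      exact Nat.Coprime.pow_right _ (Nat.Coprime.symm (Nat.coprime_two_left.mpr hodd))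
  refine h4.coprime_dvd_right ?_
  exact Nat.div_dvd_div (Subgroup.card_dvd_of_le hH) (Subgroup.card_subgroup_dvd_card H)

theorem C1 (hM2 : M2_stmt) (hPLL : PLL_stmt) (hAB : AB_stmt) (hNH : NH_stmt) (hP1 : P1_stmt)
    (hP5 : P5_stmt) : C1_stmt := by
  intro L Ω _ _ A t ρ hLL hD hρ hpr htρ hne
  rcases hM2 L Ω A t ρ hLL hD hρ hpr htρ with hn | hE
  swap
  · exact hE
  exfalso
  have hPL := hPLL L Ω A hLL
  have := hPL.finL
  have := hPL.finΩ
  obtain ⟨hodd, htwo, hEF, hoddc, ⟨n, hF⟩, hcyc, -, -, -, -⟩ := hAB L A hPL.cyc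
  -- `A` is abelian
  have hcomm : ∀ a ∈ A, ∀ b ∈ A, a * b = b * a := by
    intro a ha b hb
    have := hPL.cyc
    have := (IsCyclic.commGroup (α := A)).mul_comm ⟨a, ha⟩ ⟨b, hb⟩
    exact congrArg Subtype.val this
  have hle : ∀ a ∈ oddPart A, a ∈ A := fun a ha => ((hodd a).1 ha).1
  obtain ⟨⟨τ, hτA, hτ⟩, hconj⟩ := hP1 L Ω A hPL
  have ht1 : t ≠ 1 := fun h => hD.2.1 (h ▸ A.one_mem)
  have htinv : IsInv t := ⟨hD.1, ht1⟩
  obtain ⟨g, hg⟩ := hconj τ t hτ htinv
  obtain ⟨-, -, h5⟩ := hP5 L Ω A hPL τ hτA hτ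
  -- `g⁻¹ ρ g ∈ oddPart A`
  have hρ' : g⁻¹ * ρ * g ∈ oddPart A := by
    apply h5
    · have : τ = g⁻¹ * t * g := by rw [← hg]; group
      rw [this]
      calc g⁻¹ * ρ * g * (g⁻¹ * t * g) = g⁻¹ * (ρ * t) * g := by group
        _ = g⁻¹ * (t * ρ) * g := by rw [htρ]
        _ = g⁻¹ * t * g * (g⁻¹ * ρ * g) := by group
    · have e1 : (g⁻¹ * ρ * g) ^ Nat.card (oddPart A) = g⁻¹ * ρ ^ Nat.card (oddPart A) * g := by
        have := conj_pow (i := Nat.card (oddPart A)) (a := g⁻¹) (b := ρ)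
        rw [inv_inv] at this
        exact this
      rw [e1]
      have e2 : ρ ^ Nat.card (oddPart A) = 1 := by
        have := pow_card_eq_one' (x := (⟨ρ, hρ⟩ : oddPart A))
        exact congrArg Subtype.val this
      rw [e2]; group
  -- conjugation by `g` maps `oddPart A` to itself
  have hmap : ∀ a ∈ oddPart A, g * a * g⁻¹ ∈ oddPart A := by
    intro a ha
    have hHall := C1_hall hAB hPL (Subgroup.centralizer ({ρ} : Set L)) (by
      intro b hb
      rw [Subgroup.mem_centralizer_singleton_iff]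
      exact hcomm b (hle b hb) ρ (hle ρ hρ))
    refine hNH L (oddPart A) (Subgroup.centralizer ({ρ} : Set L)) ?_ ?_ hHall _ ?_ ?_
    · intro b hb
      rw [Subgroup.mem_centralizer_singleton_iff]
      exact hcomm b (hle b hb) ρ (hle ρ hρ)
    · intro x hx b hb
      rw [Subgroup.mem_centralizer_singleton_iff] at hx
      exact hn x hx b hb
    · rw [Subgroup.mem_centralizer_singleton_iff]
      have e := hcomm a (hle a ha) _ (hle _ hρ')
      calc g * a * g⁻¹ * ρ = g * (a * (g⁻¹ * ρ * g)) * g⁻¹ := by group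
        _ = g * ((g⁻¹ * ρ * g) * a) * g⁻¹ := by rw [e]
        _ = ρ * (g * a * g⁻¹) := by group
    · rw [conj_pow]
      have e2 : a ^ Nat.card (oddPart A) = 1 := by
        have := pow_card_eq_one' (x := (⟨a, ha⟩ : oddPart A))
        exact congrArg Subtype.val this
      rw [e2]; group
  -- it is surjective
  have hsurj : ∀ b ∈ oddPart A, ∃ a ∈ oddPart A, g * a * g⁻¹ = b := by
    let f : oddPart A → oddPart A := fun a => ⟨g * a.1 * g⁻¹, hmap a.1 a.2⟩
    have hf : Function.Injective f := by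
      intro x y hxy
      have : g * x.1 * g⁻¹ = g * y.1 * g⁻¹ := congrArg Subtype.val hxy
      apply Subtype.ext
      have := mul_right_cancel this
      exact mul_left_cancel this
    have hs := (Finite.injective_iff_surjective (f := f)).1 hf
    intro b hb
    obtain ⟨a, ha⟩ := hs ⟨b, hb⟩
    exact ⟨a.1, a.2, congrArg Subtype.val ha⟩
  obtain ⟨b, hb, hbt⟩ := hne
  obtain ⟨a, ha, hab⟩ := hsurj b hb
  apply hbt
  have e := hcomm τ hτA a (hle a ha)
  calc t * b = g * (τ * a) * g⁻¹ := by rw [← hab, ← hg]; group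
    _ = g * (a * τ) * g⁻¹ := by rw [e]
    _ = b * t := by rw [← hab, ← hg]; group

end Pool.Agent.helper53.AU
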