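import Pool.Agent.helper97.AU.C1

/-!
# Project au: module G2
-/

namespace Pool.Agent.helper53.AU

open scoped Classical

theorem G2_commA {L : Type} [Group L] {A : Subgroup L} (h : IsCyclic A) :
    ∀ a ∈ A, ∀ b ∈ A, a * b = b * a := by
  intro a ha b hb
  have := (IsCyclic.commGroup (α := A)).mul_comm ⟨a, ha⟩ ⟨b, hb⟩
  exact congrArg Subtype.val this

/-- cardinality facts -/
theorem G2_card {L Ω : Type} [Group L] [MulAction L Ω] {A : Subgroup L} (hAB : AB_stmt)
    (h : PL L Ω A) (h2 : Nat.card (twoPart A) = 2) :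
    Nat.card Ω = 4 * Nat.card (oddPart A) ∧ Odd (Nat.card (oddPart A)) ∧
    ∀ α : Ω, Odd (Nat.card (MulAction.stabilizer L α)) ∧
      Nat.card L = 4 * (Nat.card (oddPart A) * Nat.card (MulAction.stabilizer L α)) := by
  have := h.finL
  have := h.finΩ
  have := h.trans
  obtain ⟨-, -, hEF, hodd, -, -⟩ := hAB L A h.cyc
  have h0 : Nat.card Ω = 4 * Nat.card (oddPart A) := by
    rw [← h.cardA, ← hEF, h2]; ring
  refine ⟨h0, hodd, ?_⟩
  intro α
  constructor
  · have h1 := h.copr α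
    have h3 : Nat.Coprime (Nat.card (MulAction.stabilizer L α)) 2 :=
      h1.coprime_dvd_right ⟨2 * Nat.card (oddPart A), by rw [h0]; ring⟩
    exact Nat.coprime_two_right.mp h3
  · have h1 : Nat.card (MulAction.stabilizer L α) * Nat.card Ω = Nat.card L := by
      rw [← MulAction.index_stabilizer_of_transitive L α]
      exact Subgroup.card_mul_index _
    rw [← h1, h0]; ring

/-- the centraliser of `ρ` has twice an odd number of elements -/
theorem G2_cardM {L : Type} [Group L] [Finite L] {ρ τ t : L} {m : ℕ} (hm : Odd m)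
    (hL : Nat.card L = 4 * m) (hτ : IsInv τ) (hτρ : τ * ρ = ρ * τ)
    (htρ : t * ρ * t⁻¹ = ρ⁻¹) (hρ : ρ⁻¹ ≠ ρ) :
    ∃ n : ℕ, Odd n ∧ Nat.card (Subgroup.centralizer ({ρ} : Set L)) = 2 * n := by
  set M := Subgroup.centralizer ({ρ} : Set L) with hM
  have hτM : τ ∈ M := by rw [hM, Subgroup.mem_centralizer_singleton_iff]; exact hτρ
  have h2 : 2 ∣ Nat.card M := by
    have h1 : orderOf (⟨τ, hτM⟩ : M) = 2 := by
      rw [orderOf_eq_prime_iff]
      constructor
      · ext; simp [pow_two, hτ.1]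
      · intro h; exact hτ.2 (congrArg Subtype.val h)
    rw [← h1]; exact orderOf_dvd_natCard _
  obtain ⟨n, hn⟩ := h2
  refine ⟨n, ?_, hn⟩
  -- the subgroup `N = M ∪ t M`
  let N : Subgroup L := {
    carrier := {x | x * ρ * x⁻¹ = ρ ∨ x * ρ * x⁻¹ = ρ⁻¹}
    one_mem' := by left; simp
    mul_mem' := by
      intro a b ha hb
      have e : a * b * ρ * (a * b)⁻¹ = a * (b * ρ * b⁻¹) * a⁻¹ := by group
      rcases ha with ha | ha <;> rcases hb with hb | hb
      · left; rw [e, hb, ha]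
      · right; rw [e, hb]
        have : a * ρ⁻¹ * a⁻¹ = (a * ρ * a⁻¹)⁻¹ := by group
        rw [this, ha]
      · right; rw [e, hb, ha]
      · left; rw [e, hb]
        have : a * ρ⁻¹ * a⁻¹ = (a * ρ * a⁻¹)⁻¹ := by group
        rw [this, ha, inv_inv]
    inv_mem' := by
      intro a ha
      rcases ha with ha | ha
      · left
        have h3 : a⁻¹ * (a * ρ * a⁻¹) * a = ρ := by group
        rw [ha] at h3
        rw [inv_inv]; exact h3
      · right
        have h3 : a⁻¹ * ρ⁻¹ * a = ρ := by rw [← ha]; group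
        have h4 : a⁻¹ * ρ * a = (a⁻¹ * ρ⁻¹ * a)⁻¹ := by group
        rw [inv_inv, h4, h3] }
  have hMN : M ≤ N := by
    intro x hx
    rw [hM, Subgroup.mem_centralizer_singleton_iff] at hx
    left
    rw [hx]; group
  have htN : t ∈ N := Or.inr htρ
  have htM : t ∉ M := by
    intro h
    rw [hM, Subgroup.mem_centralizer_singleton_iff] at h
    apply hρ
    rw [← htρ, h]; group
  -- a homomorphism `N → ZMod 2`
  have hidx : (M.subgroupOf N).index = 2 := by
    rw [Subgroup.index_eq_two_iff]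
    refine ⟨⟨t, htN⟩, ?_⟩
    intro b
    rw [Subgroup.mem_subgroupOf, Subgroup.mem_subgroupOf]
    rw [hM, Subgroup.mem_centralizer_singleton_iff, Subgroup.mem_centralizer_singleton_iff]
    have hb := b.2
    have key : ∀ x : L, x * ρ = ρ * x ↔ x * ρ * x⁻¹ = ρ := by
      intro x
      constructor
      · intro h; rw [h]; group
      · intro h; nth_rewrite 2 [← h]; group
    rw [key, key]
    simp only [Subgroup.coe_mul]
    have e : (b : L) * t * ρ * ((b : L) * t)⁻¹ = ((b : L) * ρ * (b : L)⁻¹)⁻¹ := by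
      have : (b : L) * t * ρ * ((b : L) * t)⁻¹ = (b : L) * (t * ρ * t⁻¹) * (b : L)⁻¹ := by group
      rw [this, htρ]; group
    rw [e]
    rcases hb with hb | hb
    · right
      refine ⟨hb, ?_⟩
      rw [hb]; exact hρ
    · left
      refine ⟨by rw [hb, inv_inv], ?_⟩
      rw [hb]; exact hρ
  have hcard : Nat.card N = 2 * (2 * n) := by
    have h3 := Subgroup.card_mul_index (M.subgroupOf N)
    rw [hidx] at h3
    have h4 : Nat.card (M.subgroupOf N) = Nat.card M :=
      Nat.card_congr (Subgroup.subgroupOfEquivOfLe hMN).toEquiv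
    rw [← h3, h4, hn]; ring
  have hdvd : Nat.card N ∣ Nat.card L := Subgroup.card_subgroup_dvd_card N
  rw [hcard, hL] at hdvd
  have h5 : n ∣ m := by
    have : 4 * n ∣ 4 * m := by
      have e : 2 * (2 * n) = 4 * n := by ring
      rwa [e] at hdvd
    exact (Nat.mul_dvd_mul_iff_left (by norm_num)).1 this
  exact hm.of_dvd_nat h5

/-- the subgroup of the elements of odd order in `M = C(ρ)` -/
theorem G2_K {L : Type} [Group L] [Finite L] (hTC : TC_stmt) (M : Subgroup L) (n : ℕ)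
    (hn : Odd n) (hM : Nat.card M = 2 * n) :
    ∃ K : Subgroup L, Nat.card K = n ∧ ∀ x : L, x ∈ K ↔ x ∈ M ∧ Odd (orderOf x) := by
  have : Fact (Nat.Prime 2) := ⟨Nat.prime_two⟩
  obtain ⟨S⟩ : Nonempty (Sylow 2 M) := inferInstance
  have hS : Nat.card S = 2 := by
    have h1 := Sylow.card_eq_multiplicity S
    rw [h1, hM]
    have h2 : (2 * n).factorization 2 = 1 := by
      rw [Nat.factorization_mul (by norm_num) (by rintro rfl; simp at hn)]
      rw [Finsupp.add_apply, Nat.Prime.factorization_self Nat.prime_two]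
      rw [Nat.factorization_eq_zero_of_not_dvd]
      intro h
      exact (Nat.not_even_iff_odd.2 hn) (even_iff_two_dvd.2 h)
    rw [h2, pow_one]
  have hcyc : IsCyclic S := isCyclic_of_prime_card (p := 2) hS
  obtain ⟨K0, hK0n, hK0o, hK0i⟩ := hTC M S hcyc
  rw [hS] at hK0i
  have hK0c : Nat.card K0 = n := by
    have h1 := Subgroup.card_mul_index K0
    rw [hK0i, hM] at h1
    omega
  refine ⟨K0.map M.subtype, ?_, ?_⟩
  · rw [Subgroup.card_map_of_injective M.subtype_injective]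
    exact hK0c
  · intro x
    constructor
    · rintro ⟨y, hy, rfl⟩
      refine ⟨y.2, ?_⟩
      have h1 : orderOf (M.subtype y) = orderOf y := orderOf_injective M.subtype M.subtype_injective y
      rw [h1]
      have h2 : orderOf y ∣ Nat.card K0 := Subgroup.orderOf_dvd_natCard K0 hy
      exact hK0o.of_dvd_nat h2
    · rintro ⟨hx, hxo⟩
      refine ⟨⟨x, hx⟩, ?_, rfl⟩
      by_contra hcon
      have h1 : (⟨x, hx⟩ : M) ^ 2 ∈ K0 := by
        exact Subgroup.sq_mem_of_index_two hK0i _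
      have h2 : orderOf (⟨x, hx⟩ : M) = orderOf x := by
        rw [← orderOf_injective M.subtype M.subtype_injective]; rfl
      obtain ⟨k, hk⟩ := hxo
      have h3 : (⟨x, hx⟩ : M) ^ (2 * k + 1) = 1 := by
        rw [← hk, ← h2]; exact pow_orderOf_eq_one _
      apply hcon
      have h4 : (⟨x, hx⟩ : M) = ((⟨x, hx⟩ : M) ^ 2) ^ (k + 1) := by
        rw [← pow_mul]
        have : 2 * (k + 1) = (2 * k + 1) + 1 := by ring
        rw [this, pow_succ, h3, one_mul]
      rw [h4]
      exact K0.pow_mem h1 _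

/-- the orbits of `K` are those of `B` -/
theorem G2_orb {L Ω : Type} [Group L] [MulAction L Ω] [Finite L] [Finite Ω] (K B : Subgroup L)
    (hBK : B ≤ K) (hΩ : Nat.card Ω = 4 * Nat.card B) (hodd : Odd (Nat.card K))
    (hsemi : ∀ b ∈ B, ∀ ω : Ω, b • ω = ω → b = 1) (τ : L)
    (hτ : ∀ k ∈ K, ∀ ω : Ω, τ • ω ≠ k • ω)
    (hcop : ∀ ω : Ω, Nat.Coprime (Nat.card (MulAction.stabilizer K ω)) (Nat.card B)) :
    ∀ ω : Ω, ∀ x ∈ K, ∃ a ∈ B, x • ω = a • ω := by
  intro ω x hx
  have hK : (MulAction.orbit K ω).ncard * Nat.card (MulAction.stabilizer K ω) = Nat.card K := by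
    rw [← MulAction.index_stabilizer, mul_comm]
    exact Subgroup.card_mul_index _
  have hB : (MulAction.orbit B ω).ncard = Nat.card B := by
    have h1 : (MulAction.orbit B ω).ncard * Nat.card (MulAction.stabilizer B ω) = Nat.card B := by
      rw [← MulAction.index_stabilizer, mul_comm]
      exact Subgroup.card_mul_index _
    have h2 : MulAction.stabilizer B ω = ⊥ := by
      rw [eq_bot_iff]
      intro b hb
      rw [MulAction.mem_stabilizer_iff] at hb
      rw [Subgroup.mem_bot]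
      exact Subtype.ext (hsemi b.1 b.2 ω hb)
    rw [h2, Subgroup.card_bot, mul_one] at h1
    exact h1
  have hsub : MulAction.orbit B ω ⊆ MulAction.orbit K ω := by
    rintro _ ⟨b, rfl⟩
    exact ⟨⟨b.1, hBK b.2⟩, rfl⟩
  have hdvd : Nat.card B ∣ (MulAction.orbit K ω).ncard := by
    have h1 : Nat.card B ∣ (MulAction.orbit K ω).ncard * Nat.card (MulAction.stabilizer K ω) := by
      rw [hK]; exact Subgroup.card_dvd_of_le hBK
    exact Nat.Coprime.dvd_of_dvd_mul_right (hcop ω).symm h1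
  have hoddO : Odd (MulAction.orbit K ω).ncard := by
    apply hodd.of_dvd_nat
    exact ⟨_, hK.symm⟩
  have htwo : 2 * (MulAction.orbit K ω).ncard ≤ Nat.card Ω := by
    have h1 : Disjoint (MulAction.orbit K ω) ((fun y => τ • y) '' MulAction.orbit K ω) := by
      rw [Set.disjoint_left]
      rintro _ ⟨k', rfl⟩ ⟨_, ⟨k, rfl⟩, h⟩
      have h' : τ • ((k : L) • ω) = (k' : L) • ω := h
      apply hτ ((k' : L) * (k : L)⁻¹) (K.mul_mem k'.2 (K.inv_mem k.2)) ((k : L) • ω)
      rw [h', mul_smul, inv_smul_smul]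
    have h2 : ((fun y => τ • y) '' MulAction.orbit K ω).ncard = (MulAction.orbit K ω).ncard :=
      Set.ncard_image_of_injective _ (MulAction.injective τ)
    have h3 := Set.ncard_union_eq h1 (Set.toFinite _) (Set.toFinite _)
    rw [h2] at h3
    have h4 : (MulAction.orbit K ω ∪ (fun y => τ • y) '' MulAction.orbit K ω).ncard ≤
        Nat.card Ω := Set.ncard_le_card _
    omega
  have heq : (MulAction.orbit K ω).ncard = Nat.card B := by
    obtain ⟨j, hj⟩ := hdvd
    have hBpos : 0 < Nat.card B := Nat.card_pos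
    have hj2 : j ≤ 2 := by
      by_contra hcon
      push Not at hcon
      have : Nat.card B * 3 ≤ Nat.card B * j := Nat.mul_le_mul_left _ hcon
      rw [hj, hΩ] at htwo
      omega
    have hj1 : Odd j := hoddO.of_dvd_nat ⟨Nat.card B, by rw [hj]; ring⟩
    have hj3 : j = 1 := by
      obtain ⟨i, hi⟩ := hj1
      omega
    rw [hj, hj3, mul_one]
  have hset : MulAction.orbit B ω = MulAction.orbit K ω :=
    Set.eq_of_subset_of_ncard_le hsub (by rw [heq, hB]) (Set.toFinite _)
  have hxo : x • ω ∈ MulAction.orbit K ω := ⟨⟨x, hx⟩, rfl⟩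
  rw [← hset] at hxo
  obtain ⟨b, hb⟩ := hxo
  exact ⟨b.1, b.2, hb.symm⟩

theorem G2 (hPLL : PLL_stmt) (hAB : AB_stmt) (hTC : TC_stmt) (hNH : NH_stmt) (hLO : LO_stmt)
    (hP5 : P5_stmt) : G2_stmt := by
  intro L Ω _ _ A t τ ρ hLL hD hinv h2 hτA hτ hρ hpr g
  have hPL := hPLL L Ω A hLL
  have := hPL.finL
  have := hPL.finΩ
  have := hPL.trans
  have := hPL.faithful
  obtain ⟨hodd, htwo, hEF, hoddc, ⟨n, hF⟩, hcyc, -, -, -, -⟩ := hAB L A hPL.cyc
  have hcomm := G2_commA hPL.cyc
  have hle : ∀ a ∈ oddPart A, a ∈ A := fun a ha => ((hodd a).1 ha).1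
  obtain ⟨h51, -, -⟩ := hP5 L Ω A hPL τ hτA hτ
  constructor
  swap
  · intro hg
    obtain ⟨-, -, -, -, -, -, -, -, -, h10⟩ := hAB L (oddPart A) hcyc
    exact h10 (Subgroup.zpowers ρ) ((Subgroup.zpowers_le).2 hρ) g (h51 g hg) ρ
      (Subgroup.mem_zpowers ρ)
  intro hg
  obtain ⟨hΩ, hEodd, hst⟩ := G2_card hAB hPL h2
  obtain ⟨α⟩ := hPL.nonempty
  have hρo : Odd (orderOf ρ) := ((hodd ρ).1 hρ).2
  have hρρ : ρ⁻¹ ≠ ρ := by
    intro h
    have h1 : ρ ^ 2 = 1 := by
      rw [pow_two]; nth_rewrite 1 [← h]; group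
    have h3 := orderOf_dvd_of_pow_eq_one h1
    have h4 : orderOf ρ = 2 := (Nat.prime_dvd_prime_iff_eq hpr Nat.prime_two).1 h3
    rw [h4] at hρo
    exact absurd hρo (by decide)
  obtain ⟨m, hm, hM⟩ := G2_cardM (hEodd.mul (hst α).1) (hst α).2 hτ
    (hcomm τ hτA ρ (hle ρ hρ)) (hinv ρ (hle ρ hρ)) hρρ
  obtain ⟨K, hKc, hK⟩ := G2_K hTC _ m hm hM
  have hMc : ∀ x : L, x ∈ Subgroup.centralizer ({ρ} : Set L) ↔ x * ρ = ρ * x := fun x =>
    Subgroup.mem_centralizer_singleton_iff
  have hBK : oddPart A ≤ K := by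
    intro b hb
    rw [hK, hMc]
    exact ⟨hcomm b (hle b hb) ρ (hle ρ hρ), ((hodd b).1 hb).2⟩
  have hKodd : Odd (Nat.card K) := by rw [hKc]; exact hm
  have hτo : orderOf τ = 2 := by
    rw [orderOf_eq_prime_iff]
    exact ⟨by rw [pow_two]; exact hτ.1, hτ.2⟩
  have hτM : τ * ρ = ρ * τ := hcomm τ hτA ρ (hle ρ hρ)
  have hτK : τ ∉ K := by
    intro h
    have h1 := ((hK τ).1 h).2
    rw [hτo] at h1
    exact absurd h1 (by decide)
  have hstab : ∀ (x : L) (ω : Ω), x • ω = ω → Odd (orderOf x) := by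
    intro x ω hx
    have h1 : orderOf x ∣ Nat.card (MulAction.stabilizer L ω) :=
      Subgroup.orderOf_dvd_natCard _ (MulAction.mem_stabilizer_iff.2 hx)
    exact (hst ω).1.of_dvd_nat h1
  have hτ2 : ∀ k ∈ K, ∀ ω : Ω, τ • ω ≠ k • ω := by
    intro k hk ω h
    have h1 : (k⁻¹ * τ) • ω = ω := by rw [mul_smul, h, inv_smul_smul]
    have h3 := hstab _ _ h1
    have h4 : k⁻¹ * τ ∈ K := by
      rw [hK]
      exact ⟨Subgroup.mul_mem _ (Subgroup.inv_mem _ ((hK k).1 hk).1) ((hMc τ).2 hτM), h3⟩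
    apply hτK
    have := K.mul_mem hk h4
    rwa [mul_inv_cancel_left] at this
  have hcop0 : ∀ ω : Ω, ∀ H : Subgroup L, Nat.Coprime (Nat.card (MulAction.stabilizer H ω))
      (Nat.card (oddPart A)) := by
    intro ω H
    have h1 : Nat.card (MulAction.stabilizer H ω) ∣ Nat.card (MulAction.stabilizer L ω) := by
      have e := Subgroup.card_map_of_injective (K := MulAction.stabilizer H ω) H.subtype_injective
      rw [← e]
      apply Subgroup.card_dvd_of_le
      rintro _ ⟨y, hy, rfl⟩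
      exact hy
    have h3 : Nat.card (oddPart A) ∣ Nat.card Ω := ⟨4, by rw [hΩ]; ring⟩
    exact ((hPL.copr ω).coprime_dvd_left h1).coprime_dvd_right h3
  have horb := G2_orb K (oddPart A) hBK hΩ hKodd
    (fun b hb ω h => hPL.semireg b (hle b hb) ω h) τ hτ2 (fun ω => hcop0 ω K)
  obtain ⟨hn, hc⟩ := hLO L Ω K (oddPart A) hBK hcyc hKodd horb
    (fun b hb ω h => hPL.semireg b (hle b hb) ω h) (by
      intro ω
      have e : Nat.card {x : L // x ∈ K ∧ x • ω = ω} = Nat.card (MulAction.stabilizer K ω) := by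
        apply Nat.card_congr
        exact {
          toFun := fun x => ⟨⟨x.1, x.2.1⟩, x.2.2⟩
          invFun := fun x => ⟨x.1.1, x.1.2, x.2⟩
          left_inv := fun x => rfl
          right_inv := fun x => rfl }
      rw [e]
      exact hcop0 ω K)
  -- `g` normalises `M`
  have hzp : ρ ∈ Subgroup.zpowers (g * ρ * g⁻¹) := by
    have h1 : Subgroup.zpowers (g * ρ * g⁻¹) = Subgroup.zpowers ρ := by
      apply Subgroup.eq_of_le_of_card_ge ((Subgroup.zpowers_le).2 hg)
      rw [Nat.card_zpowers, Nat.card_zpowers]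
      have h3 : orderOf (g * ρ * g⁻¹) = orderOf ρ := by
        have := orderOf_injective (MulAut.conj g).toMonoidHom (MulAut.conj g).injective ρ
        exact this
      rw [h3]
    rw [h1]; exact Subgroup.mem_zpowers ρ
  obtain ⟨k, hk⟩ := hzp
  have hgM : ∀ x : L, x * ρ = ρ * x → (g * x * g⁻¹) * ρ = ρ * (g * x * g⁻¹) := by
    intro x hx
    have h1 : x * ρ ^ k = ρ ^ k * x := (Commute.zpow_right (show Commute x ρ from hx) k)
    have h3 : ρ = g * ρ ^ k * g⁻¹ := by
      have h4 : (g * ρ * g⁻¹) ^ k = ρ := hk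
      rw [conj_zpow] at h4
      exact h4.symm
    rw [h3]
    calc g * x * g⁻¹ * (g * ρ ^ k * g⁻¹) = g * (x * ρ ^ k) * g⁻¹ := by group
      _ = g * (ρ ^ k * x) * g⁻¹ := by rw [h1]
      _ = g * ρ ^ k * g⁻¹ * (g * x * g⁻¹) := by group
  have hgK : ∀ x ∈ K, g * x * g⁻¹ ∈ K := by
    intro x hx
    rw [hK, hMc] at hx ⊢
    refine ⟨hgM x hx.1, ?_⟩
    have h3 : orderOf (g * x * g⁻¹) = orderOf x := by
      have := orderOf_injective (MulAut.conj g).toMonoidHom (MulAut.conj g).injective x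
      exact this
    rw [h3]; exact hx.2
  have hgB : ∀ a ∈ oddPart A, g * a * g⁻¹ ∈ oddPart A := by
    intro a ha
    refine hNH L (oddPart A) K hBK hn (C1_hall hAB hPL K hBK) _ (hgK a (hBK ha)) ?_
    rw [conj_pow]
    have e2 : a ^ Nat.card (oddPart A) = 1 := by
      have := pow_card_eq_one' (x := (⟨a, ha⟩ : oddPart A))
      exact congrArg Subtype.val this
    rw [e2]; group
  have hsurj : ∀ b ∈ oddPart A, ∃ a ∈ oddPart A, g * a * g⁻¹ = b := by
    let f : oddPart A → oddPart A := fun a => ⟨g * a.1 * g⁻¹, hgB a.1 a.2⟩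
    have hf : Function.Injective f := by
      intro x y hxy
      have : g * x.1 * g⁻¹ = g * y.1 * g⁻¹ := congrArg Subtype.val hxy
      apply Subtype.ext
      have := mul_right_cancel this
      exact mul_left_cancel this
    have hs := (Finite.injective_iff_surjective (f := f)).1 hf
    intro b hb
    obtain ⟨a, ha⟩ := hs ⟨b, hb⟩
    exact ⟨a.1, a.2, congrArg Subtype.val ha⟩
  -- the involution `s = g τ g⁻¹`
  have hsB : ∀ b ∈ oddPart A, (g * τ * g⁻¹) * b = b * (g * τ * g⁻¹) := by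
    intro b hb
    obtain ⟨a, ha, rfl⟩ := hsurj b hb
    have e := hcomm τ hτA a (hle a ha)
    calc g * τ * g⁻¹ * (g * a * g⁻¹) = g * (τ * a) * g⁻¹ := by group
      _ = g * (a * τ) * g⁻¹ := by rw [e]
      _ = g * a * g⁻¹ * (g * τ * g⁻¹) := by group
  have hsM : (g * τ * g⁻¹) * ρ = ρ * (g * τ * g⁻¹) := hgM τ hτM
  have hsK : g * τ * g⁻¹ ∉ K := by
    intro h
    have h1 := ((hK _).1 h).2
    have h3 : orderOf (g * τ * g⁻¹) = orderOf τ := by
      have := orderOf_injective (MulAut.conj g).toMonoidHom (MulAut.conj g).injective τ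
      exact this
    rw [h3, hτo] at h1
    exact absurd h1 (by decide)
  have hKM : K ≤ Subgroup.centralizer ({ρ} : Set L) := fun x hx => ((hK x).1 hx).1
  have hidx : (K.subgroupOf (Subgroup.centralizer ({ρ} : Set L))).index = 2 := by
    have h1 := Subgroup.card_mul_index (K.subgroupOf (Subgroup.centralizer ({ρ} : Set L)))
    have h3 : Nat.card (K.subgroupOf (Subgroup.centralizer ({ρ} : Set L))) = Nat.card K :=
      Nat.card_congr (Subgroup.subgroupOfEquivOfLe hKM).toEquiv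
    rw [h3, hM, hKc] at h1
    have hmpos : 0 < m := by
      obtain ⟨i, hi⟩ := hm; omega
    have h4 : m * (K.subgroupOf (Subgroup.centralizer ({ρ} : Set L))).index = m * 2 := by
      rw [h1]; ring
    exact Nat.eq_of_mul_eq_mul_left hmpos h4
  have hprod : (g * τ * g⁻¹) * τ ∈ K := by
    have h1 := Subgroup.mul_mem_iff_of_index_two hidx
      (a := ⟨g * τ * g⁻¹, (hMc _).2 hsM⟩) (b := ⟨τ, (hMc _).2 hτM⟩)
    rw [Subgroup.mem_subgroupOf, Subgroup.mem_subgroupOf, Subgroup.mem_subgroupOf] at h1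
    exact h1.2 ⟨fun h => absurd h hsK, fun h => absurd h hτK⟩
  have hb := hc _ hprod (by
    intro a ha
    have e1 := hsB a ha
    have e2 := hcomm τ hτA a (hle a ha)
    calc g * τ * g⁻¹ * τ * a = (g * τ * g⁻¹) * (τ * a) := by group
      _ = (g * τ * g⁻¹) * (a * τ) := by rw [e2]
      _ = ((g * τ * g⁻¹) * a) * τ := by group
      _ = (a * (g * τ * g⁻¹)) * τ := by rw [e1]
      _ = a * (g * τ * g⁻¹ * τ) := by group)
  set b := g * τ * g⁻¹ * τ with hbdef
  have hs : g * τ * g⁻¹ = b * τ := by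
    rw [hbdef, mul_assoc _ τ τ, hτ.1, mul_one]
  have hb2 : b * b = 1 := by
    have e2 := hcomm τ hτA b (hle b hb)
    have h1 : (g * τ * g⁻¹) * (g * τ * g⁻¹) = 1 := by
      calc (g * τ * g⁻¹) * (g * τ * g⁻¹) = g * (τ * τ) * g⁻¹ := by group
        _ = 1 := by rw [hτ.1]; group
    rw [hs] at h1
    calc b * b = b * (τ * τ) * b := by rw [hτ.1, mul_one]
      _ = b * τ * (τ * b) := by group
      _ = b * τ * (b * τ) := by rw [e2]
      _ = 1 := h1
  have hb1 : b = 1 := by
    have h1 : orderOf b ∣ 2 := orderOf_dvd_of_pow_eq_one (by rw [pow_two]; exact hb2)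
    have h3 : Odd (orderOf b) := ((hodd b).1 hb).2
    rcases (Nat.dvd_prime Nat.prime_two).1 h1 with h4 | h4
    · exact orderOf_eq_one_iff.1 h4
    · rw [h4] at h3; exact absurd h3 (by decide)
  rw [hb1, one_mul] at hs
  calc g * τ = (g * τ * g⁻¹) * g := by group
    _ = τ * g := by rw [hs]

end Pool.Agent.helper53.AU
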