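import Pool.Agent.helper53.AU.SpecG1

/-!
Module TB (Burnside transfer): if the normaliser of a Sylow subgroup centralises it, then there is a
normal complement.
-/

namespace Pool.Agent.helper53.AU

theorem TB : TB_stmt := by
  intro G _ _ p _ S hS
  have hP : Subgroup.normalizer (S : Set G) ≤ Subgroup.centralizer (S : Set G) := by
    intro g hg
    rw [Subgroup.mem_centralizer_iff]
    intro s hs
    have h1 : ∀ s ∈ (S : Subgroup G), g * s * g⁻¹ ∈ (S : Subgroup G) := by
      intro s hs
      exact (Subgroup.mem_normalizer_iff.mp hg s).mp hs
    exact (hS g h1 s hs).symm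
  refine ⟨(MonoidHom.transferSylow S hP).ker, inferInstance, ?_⟩
  exact (MonoidHom.ker_transferSylow_isComplement' S hP).symm.index_eq_card

end Pool.Agent.helper53.AU

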