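import Pool.Agent.helper84.AU.AB
import Pool.Agent.helper17.AU.B1
import Pool.Agent.helper33.AU.B2
import Pool.Agent.helper16.AU.B3
import Pool.Agent.helper16.AU.B4
import Pool.Agent.helper92.AU.B5
import Pool.Agent.helper71.AU.B6
import Pool.Agent.helper97.AU.C1
import Pool.Agent.helper52.AU.C3
import Pool.Agent.helper54.AU.C4
import Pool.Agent.helper46.AU.C5
import Pool.Agent.helper99.AU.C6
import Pool.Agent.helper14.AU.C7
import Pool.Agent.helper4.AU.C8
import Pool.Agent.helper6.AU.C9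
import Pool.Agent.helper17.AU.CM
import Pool.Agent.helper99.AU.G1
import Pool.Agent.helper97.AU.G2
import Pool.Agent.helper25.AU.G3
import Pool.Agent.helper14.AU.G4
import Pool.Agent.helper61.AU.G5
import Pool.Agent.helper18.AU.LB
import Pool.Agent.helper43.AU.LI
import Pool.Agent.helper72.AU.LO
import Pool.Agent.helper65.AU.LP
import Pool.Agent.helper18.AU.M1
import Pool.Agent.helper85.AU.M3
import Pool.Agent.helper23.AU.MN
import Pool.Agent.helper6.AU.NH
import Pool.Agent.helper21.AU.OC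
import Pool.Agent.helper93.AU.P1
import Pool.Agent.helper25.AU.P3
import Pool.Agent.helper65.AU.P4
import Pool.Agent.helper1.AU.P5
import Pool.Agent.helper72.AU.P6
import Pool.Agent.helper92.AU.P7
import Pool.Agent.helper11.AU.PA
import Pool.Agent.helper61.AU.PLL
import Pool.Agent.helper78.AU.RS
import Pool.Agent.helper45.AU.SN
import Pool.Agent.helper14.AU.SR
import Pool.Agent.helper21.AU.SY
import Pool.Agent.helper97.AU.TB
import Pool.Agent.helper52.AU.TC
import Pool.Agent.helper20.AU.TG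
import Pool.Agent.helper13.AU.TT
import Pool.Agent.helper93.AU.TX
import Pool.Agent.helper13.AU.TZ
import Pool.Agent.helper78.AU.X2
import Pool.Agent.helper65.AU.X3
import Pool.Agent.helper25.AU.X4
import Pool.Agent.helper65.AU.XX
import Pool.Agent.helper71.AU.BU
import Pool.Agent.helper54.AU.M2
import Pool.Agent.helper53.AU.DC
import Pool.Agent.helper15.AU.C2
import Pool.Agent.helper79.AU.X1

/-!
Assembly of Theorem G from the landed modules.
-/

namespace Pool.Agent.helper53.AU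

theorem asm_LO : LO_stmt := LO (LP SR BU) LI (LB NH)

theorem asm_P1 : P1_stmt := P1 TT AB

theorem asm_P4 : P4_stmt := P4 asm_P1 (P3 asm_P1 AB)

theorem asm_DC : DC_stmt := DC TT TC AB

theorem asm_MN : MN_stmt := MN TC OC

theorem asm_P5 : P5_stmt := P5 AB NH asm_DC asm_LO asm_P4

theorem asm_P6 : P6_stmt := P6 asm_P4 asm_P5 AB CM asm_DC

theorem asm_M1 : M1_stmt := M1 OC asm_LO NH AB asm_P1 asm_P6 PLL

theorem asm_M2 : M2_stmt := M2 asm_M1 CM TC TZ TB asm_DC asm_MN OC AB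

theorem asm_M3 : M3_stmt := M3 TC AB

theorem asm_SN : SN_stmt := SN (TX TB) SY

theorem asm_P7 : P7_stmt := P7 asm_P1 asm_P4 asm_P6 SY asm_SN

theorem asm_X1 : X1_stmt := X1 PLL SY asm_SN

theorem asm_X2 : X2_stmt := X2 asm_X1

theorem asm_XX : XX_stmt :=
  XX PLL asm_P4 asm_X1 (X3 PLL asm_P4 asm_P7 asm_X1 asm_X2) (X4 asm_X1)

theorem asm_G5 : G5_stmt :=
  G5 PLL AB asm_P1 asm_P4 asm_P6 asm_XX
    (G1 asm_P1 asm_P4 asm_P6 PLL)
    (G3 (G2 PLL AB TC NH asm_LO asm_P5) asm_P1 asm_P5 PLL AB) G4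

theorem asm_B1 : B1_stmt :=
  B1 asm_M2 asm_M3 PLL asm_P1 asm_P4 asm_P5 asm_P6 AB

theorem asm_B6 : B6_stmt :=
  B6 asm_B1 (B2 AB NH)
    (B3 PLL AB asm_P1 asm_P5 asm_MN asm_B1 asm_M3)
    (B4 PLL AB asm_P1 asm_P6 PA SR) B5 asm_XX asm_P5 asm_P1 PLL AB

theorem asm_C1 : C1_stmt := C1 asm_M2 PLL AB NH asm_P1 asm_P5

theorem asm_C2 : C2_stmt := C2 PLL AB asm_P1 asm_P4 asm_P7

theorem asm_C3 : C3_stmt := C3 PLL asm_P6 AB asm_C2

theorem asm_C4 : C4_stmt := C4 PLL asm_P1 asm_P4 asm_P6 AB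

theorem asm_C5 : C5_stmt := C5 SR PLL AB asm_P1 asm_P6 asm_C2 asm_C3 asm_C4

theorem asm_C6 : C6_stmt := C6 asm_C2 asm_C3 asm_P1 asm_P6 PLL AB asm_LO NH

theorem asm_C7 : C7_stmt :=
  C7 AB PLL asm_P1 asm_P4 asm_P5 NH asm_M3 asm_C1 asm_C2 asm_C3 asm_C6

theorem asm_C9 : C9_stmt :=
  C9 asm_C1 asm_M3 asm_C2 asm_C3 asm_C5 asm_C7 C8 asm_XX AB PLL asm_P1

/-- Theorem G, no hypotheses. -/
theorem TGfull : TG_stmt := TG PLL AB asm_P1 asm_P6 asm_G5 asm_B6 asm_C9

/-- Reduction to the simple case, no hypotheses. -/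
theorem RSfull : RS_stmt :=
  RS TT TZ OC asm_MN asm_LO AB CM NH asm_P1 asm_P5 SY

end Pool.Agent.helper53.AU

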